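import Pool.Agent.U541.RF.Fol
import Pool.Agent.U541.FM.Cat

/-!
The geometric part: limits of translates of a net of a flat are nets of flats.
-/

set_option autoImplicit false
set_option linter.unusedSectionVars false

namespace Pool.Agent.U541.RF

open Set Filter Topology MeasureTheory
open Pool.Agent.U541.FM (E CloseTo Field)

universe u v

/-- the integer vector `z` -/
noncomputable def iv {k : ℕ} (z : Fin k → ℤ) : E k := WithLp.toLp 2 fun i => (z i : ℝ)

theorem near_iv {k : ℕ} (y : E k) : ∃ z : Fin k → ℤ, dist y (iv z) ≤ k := by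
  refine ⟨fun i => ⌊y i⌋, ?_⟩
  rw [EuclideanSpace.dist_eq, Real.sqrt_le_iff]
  refine ⟨Nat.cast_nonneg _, ?_⟩
  have h1 : ∀ i ∈ (Finset.univ : Finset (Fin k)), dist (y i) (iv (fun i => ⌊y i⌋) i) ^ 2 ≤ 1 := by
    intro i _
    have h2 : dist (y i) (iv (fun i => ⌊y i⌋) i) ≤ 1 := by
      change dist (y i) ((⌊y i⌋ : ℤ) : ℝ) ≤ 1
      rw [Real.dist_eq, Int.self_sub_floor, abs_of_nonneg (Int.fract_nonneg _)]
      exact (Int.fract_lt_one _).le
    exact pow_le_one₀ dist_nonneg h2
  refine (Finset.sum_le_card_nsmul _ _ 1 h1).trans ?_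
  simp only [Finset.card_univ, Fintype.card_fin, nsmul_eq_mul, mul_one]
  have : k ≤ k ^ 2 := Nat.le_self_pow two_ne_zero k
  exact_mod_cast this

theorem coord {k : ℕ} (z z' : Fin k → ℤ) (i : Fin k) :
    |((z i : ℤ) : ℝ) - z' i| ≤ dist (iv z) (iv z') := by
  have h := PiLp.norm_apply_le (iv z - iv z') i
  rw [dist_eq_norm]
  exact h

section
variable {X : Type u} [MetricSpace X] [ProperSpace X] {G : Type v} [Group G] [MulAction G X]
  [IsIsometricSMul G X] [ProperlyDiscontinuousSMul G X]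

theorem fin_orb (o y : X) (R : ℝ) : {g : G | dist (g • o) y ≤ R}.Finite := by
  refine (ProperlyDiscontinuousSMul.finite_disjoint_inter_image (Γ := G)
    (isCompact_singleton (x := o)) (isCompact_closedBall y R)).subset ?_
  intro g hg
  exact ⟨g • o, ⟨o, rfl, rfl⟩, hg⟩

theorem countable_of (o : X) : Countable G := by
  rw [← countable_univ_iff]
  have : (univ : Set G) ⊆ ⋃ n : ℕ, {g : G | dist (g • o) o ≤ n} := by
    intro g _
    obtain ⟨n, hn⟩ := exists_nat_ge (dist (g • o) o)
    exact mem_iUnion.2 ⟨n, hn⟩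
  exact (countable_iUnion fun n : ℕ => (fin_orb o o (n : ℝ)).countable).mono this

/-- the limit flat -/
theorem limit_flat {k : ℕ} {f : E k → X} (hf : Isometry f) (o : X) {D : ℝ}
    (κ : (Fin k → ℤ) → G) (hκ : ∀ z, dist (κ z • o) (f (iv z)) ≤ D) (S : RS G)
    (hS : ∀ W : Finset G, (∃ x ∈ W, S.1 x = true) →
      ∃ g : G, ∀ x ∈ W, (S.1 x = true ↔ ∃ z, g⁻¹ * x = κ z)) :
    ∃ h : E k → X, Isometry h ∧ (∀ a, S.1 a = true → ∃ y, dist (a • o) (h y) ≤ D + k) ∧
      ∀ y, ∃ a, S.1 a = true ∧ dist (a • o) (h y) ≤ D + k := by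
  classical
  obtain ⟨x₀, hx₀⟩ := S.2
  set W : ℕ → Finset G := fun m => insert x₀ (fin_orb (G := G) o o (m : ℝ)).toFinset with hW
  have hWm : ∀ (m : ℕ) (a : G), dist (a • o) o ≤ m → a ∈ W m := fun m a ha =>
    Finset.mem_insert_of_mem ((fin_orb (G := G) o o (m : ℝ)).mem_toFinset.2 ha)
  have hWx : ∀ m, x₀ ∈ W m := fun m => Finset.mem_insert_self _ _
  choose g hg using fun m : ℕ => hS (W m) ⟨x₀, hWx m, hx₀⟩
  choose z hz using fun m : ℕ => (hg m x₀ (hWx m)).1 hx₀
  set U : Ultrafilter ℕ := hyperfilter ℕ with hU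
  have hUle : (U : Filter ℕ) ≤ atTop := Nat.hyperfilter_le_atTop
  -- a translate of a point of the net
  have hgk : ∀ (m : ℕ) (a : G) (z' : Fin k → ℤ), (g m)⁻¹ * a = κ z' →
      dist (a • o) (g m • f (iv z')) ≤ D := by
    intro m a z' h
    have : a • o = g m • κ z' • o := by
      rw [← h, smul_smul, mul_inv_cancel_left]
    rw [this, dist_smul]
    exact hκ z'
  set p : ℕ → E k → X := fun m y => g m • f (iv (z m) + y) with hp
  have hpd : ∀ m y y', dist (p m y) (p m y') = dist y y' := by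
    intro m y y'
    simp only [hp]
    rw [dist_smul, hf.dist_eq, dist_add_left]
  have hp0 : ∀ m, dist (p m 0) (x₀ • o) ≤ D := by
    intro m
    simp only [hp, add_zero]
    rw [dist_comm]
    exact hgk m x₀ (z m) (hz m)
  have hpy : ∀ m y, dist (p m y) (x₀ • o) ≤ ‖y‖ + D := by
    intro m y
    have h1 := dist_triangle (p m y) (p m 0) (x₀ • o)
    rw [hpd, dist_zero_right] at h1
    linarith [hp0 m]
  have hlim : ∀ y, ∃ l, Tendsto (fun m => p m y) (U : Filter ℕ) (𝓝 l) := by
    intro y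
    obtain ⟨l, -, hl⟩ := (isCompact_closedBall (x₀ • o) (‖y‖ + D)).ultrafilter_le_nhds
      (U.map fun m => p m y) (by
        rw [le_principal_iff, Ultrafilter.mem_coe, Ultrafilter.mem_map]
        exact Filter.univ_mem' fun m => hpy m y)
    exact ⟨l, hl⟩
  choose h hh using hlim
  refine ⟨h, Isometry.of_dist_eq fun y y' => ?_, ?_, ?_⟩
  · refine tendsto_nhds_unique ((hh y).dist (hh y')) (tendsto_const_nhds.congr fun m => ?_)
    exact (hpd m y y').symm
  · intro a ha
    set R : ℝ := 2 * D + dist (a • o) (x₀ • o) with hR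
    have h1 : ∀ m, ∃ y : E k, a ∈ W m → y ∈ Metric.closedBall (0 : E k) R ∧
        dist (a • o) (p m y) ≤ D := by
      intro m
      by_cases hm : a ∈ W m
      · obtain ⟨z', hz'⟩ := (hg m a hm).1 ha
        have e : p m (iv z' - iv (z m)) = g m • f (iv z') := by
          simp only [hp, add_sub_cancel]
        have h2 : dist (a • o) (p m (iv z' - iv (z m))) ≤ D := by
          rw [e]
          exact hgk m a z' hz'
        refine ⟨iv z' - iv (z m), fun _ => ⟨?_, h2⟩⟩
        rw [Metric.mem_closedBall, ← hpd m]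
        have h3 := dist_triangle4 (p m (iv z' - iv (z m))) (a • o) (x₀ • o) (p m 0)
        have e1 : dist (p m (iv z' - iv (z m))) (a • o) ≤ D := by
          rw [dist_comm]
          exact h2
        have e2 : dist (x₀ • o) (p m 0) ≤ D := by
          rw [dist_comm]
          exact hp0 m
        linarith
      · exact ⟨0, fun h => (hm h).elim⟩
    choose y hy using h1
    have h4 : ∀ᶠ m in (U : Filter ℕ), a ∈ W m := by
      obtain ⟨n, hn⟩ := exists_nat_ge (dist (a • o) o)
      exact hUle (eventually_atTop.2 ⟨n, fun m hm => hWm m a (hn.trans (by exact_mod_cast hm))⟩)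
    obtain ⟨l, -, hl⟩ := (isCompact_closedBall (0 : E k) R).ultrafilter_le_nhds (U.map y) (by
      rw [le_principal_iff, Ultrafilter.mem_coe, Ultrafilter.mem_map]
      exact h4.mono fun m hm => (hy m hm).1)
    have hl' : Tendsto y (U : Filter ℕ) (𝓝 l) := hl
    refine ⟨l, ?_⟩
    have h5 : Tendsto (fun m => D + dist (y m) l) (U : Filter ℕ) (𝓝 (D + dist l l)) :=
      tendsto_const_nhds.add (hl'.dist tendsto_const_nhds)
    rw [dist_self, add_zero] at h5
    have h6 : dist (a • o) (h l) ≤ D := by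
      refine le_of_tendsto_of_tendsto (tendsto_const_nhds.dist (hh l)) h5 (h4.mono fun m hm => ?_)
      have h7 := dist_triangle (a • o) (p m (y m)) (p m l)
      rw [hpd] at h7
      linarith [(hy m hm).2]
    have : (0 : ℝ) ≤ k := Nat.cast_nonneg _
    linarith
  · intro y
    have h1 : ∀ m, ∃ b : G, (∃ z', (g m)⁻¹ * b = κ z') ∧ dist (b • o) (p m y) ≤ D + k := by
      intro m
      obtain ⟨z', hz'⟩ := near_iv (iv (z m) + y)
      have e : (g m)⁻¹ * (g m * κ z') = κ z' := by group
      refine ⟨g m * κ z', ⟨z', e⟩, ?_⟩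
      have h2 := hgk m _ z' e
      have h3 : dist (g m • f (iv z')) (p m y) ≤ k := by
        simp only [hp]
        rw [dist_smul, hf.dist_eq, dist_comm]
        exact hz'
      exact (dist_triangle _ _ _).trans (add_le_add h2 h3)
    choose b hb hb' using h1
    set R : ℝ := D + k + (‖y‖ + D) + dist (x₀ • o) o with hR
    have hbR : ∀ m, dist (b m • o) o ≤ R := by
      intro m
      have h2 := dist_triangle4 (b m • o) (p m y) (x₀ • o) o
      linarith [hb' m, hpy m y]
    have h4 : ∀ᶠ m in (U : Filter ℕ), S.1 (b m) = true := by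
      obtain ⟨n, hn⟩ := exists_nat_ge R
      refine hUle (eventually_atTop.2 ⟨n, fun m hm => ?_⟩)
      exact (hg m (b m) (hWm m _ ((hbR m).trans (hn.trans (by exact_mod_cast hm))))).2 (hb m)
    have hT := fin_orb (G := G) o o R
    have h5 : (⋃ c ∈ {g : G | dist (g • o) o ≤ R}, {m | b m = c}) ∈ U := by
      refine Filter.univ_mem' fun m => ?_
      exact mem_iUnion₂.2 ⟨b m, hbR m, rfl⟩
    obtain ⟨c, -, hc⟩ := (Ultrafilter.finite_biUnion_mem_iff hT).1 h5
    have hc' : ∀ᶠ m in (U : Filter ℕ), b m = c := hc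
    refine ⟨c, ?_, ?_⟩
    · obtain ⟨m, hm1, hm2⟩ := (hc'.and h4).exists
      rw [← hm1]
      exact hm2
    · refine le_of_tendsto (tendsto_const_nhds.dist (hh y)) (hc'.mono fun m hm => ?_)
      rw [← hm]
      exact hb' m

/-- the box of size `n` -/
noncomputable def box (k n : ℕ) : Finset (Fin k → ℤ) := Fintype.piFinset fun _ => Finset.Icc (-(n : ℤ)) n

theorem mem_box {k n : ℕ} {z : Fin k → ℤ} : z ∈ box k n ↔ ∀ i, |z i| ≤ n := by
  simp [box, Fintype.mem_piFinset, abs_le]

theorem card_box (k n : ℕ) : (box k n).card ≤ 2 ^ k * (n + 1) ^ k := by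
  rw [box, Fintype.card_piFinset_const, Int.card_Icc, ← mul_pow]
  exact Nat.pow_le_pow_left (by omega) k

/-- the part of the orbit of `o` given by the set `A` -/
def orb (o : X) (A : G → Bool) : Set X := {x | ∃ a, A a = true ∧ a • o = x}

/-- existence of random flats -/
theorem direct (hcc : ∃ K : Set X, IsCompact K ∧ ∀ x : X, ∃ g : G, g • x ∈ K) (o : X) {k : ℕ}
    {f : E k → X} (hf : Isometry f) :
    ∃ (μ : Measure (G → Bool)) (r : ℝ), (∀ g : G, μ.map (fun A x => A (g⁻¹ * x)) = μ) ∧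
      (∀ x : G, μ {A | A x = true} = 1) ∧
      ∀ᵐ A ∂μ, ∃ h : E k → X, Isometry h ∧ CloseTo r (orb o A) (range h) := by
  classical
  obtain ⟨K, hK, hGK⟩ := hcc
  have : Countable G := countable_of o
  obtain ⟨D, hD⟩ := hK.isBounded.subset_closedBall o
  choose γ hγ using hGK
  set κ : (Fin k → ℤ) → G := fun z => (γ (f (iv z)))⁻¹ with hκ
  have hκD : ∀ z, dist (κ z • o) (f (iv z)) ≤ D := by
    intro z
    have h1 := hD (hγ (f (iv z)))
    rw [Metric.mem_closedBall, dist_comm] at h1
    rw [← dist_smul (γ (f (iv z))), hκ]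
    simp only [smul_inv_smul]
    exact h1
  set A : ℕ → Finset G := fun n => (box k n).image κ with hA
  have hA0 : (A 0).Nonempty := ⟨κ 0, Finset.mem_image_of_mem _ (mem_box.2 fun i => by simp)⟩
  have hmono : Monotone A := fun a b hab => Finset.image_subset_image fun z hz =>
    mem_box.2 fun i => (mem_box.1 hz i).trans (by exact_mod_cast hab)
  have hL : ∀ L : G, ∃ c : ℕ, ∀ n, ∀ a ∈ A n, ∀ m, a * L ∈ A m → a * L ∈ A (n + c) := by
    intro L
    obtain ⟨c, hc⟩ := exists_nat_ge (2 * D + dist (L • o) o)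
    refine ⟨c, fun n a ha m hm => ?_⟩
    obtain ⟨z, hz, rfl⟩ := Finset.mem_image.1 ha
    obtain ⟨z', -, hz'⟩ := Finset.mem_image.1 hm
    rw [← hz']
    refine Finset.mem_image_of_mem _ (mem_box.2 fun i => ?_)
    have h1 : dist (iv z) (iv z') ≤ c := by
      rw [← hf.dist_eq]
      have h2 := dist_triangle4 (f (iv z)) (κ z • o) (κ z' • o) (f (iv z'))
      have h3 : dist (f (iv z)) (κ z • o) ≤ D := by
        rw [dist_comm]
        exact hκD z
      have h4 : dist (κ z • o) (κ z' • o) = dist (L • o) o := by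
        rw [hz', mul_smul, dist_smul, dist_comm]
      linarith [hκD z']
    have h2 : |z i - z' i| ≤ (c : ℤ) := by
      have h3 := (coord z z' i).trans h1
      exact_mod_cast h3
    have h3 := mem_box.1 hz i
    rw [abs_le] at h2 h3 ⊢
    push_cast
    constructor <;> omega
  have hg : ∀ n, (A n).card ≤ 2 ^ k * (n + 1) ^ k := fun n =>
    Finset.card_image_le.trans (card_box k n)
  obtain ⟨μ, h1, h2, h3⟩ := ae_pat A hA0 hmono hL hg
  have hemb : MeasurableEmbedding (Subtype.val : RS G → (G → Bool)) :=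
    MeasurableEmbedding.subtype_coe isOpen_ne.measurableSet
  have htl : ∀ g : G, Measurable (fun (A : G → Bool) (x : G) => A (g⁻¹ * x)) := fun g =>
    measurable_pi_lambda _ fun x => measurable_pi_apply (g⁻¹ * x)
  refine ⟨μ.map Subtype.val, D + k, fun g => ?_, fun x => ?_, ?_⟩
  · rw [Measure.map_map (htl g) hemb.measurable]
    have e : (fun (A : G → Bool) (x : G) => A (g⁻¹ * x)) ∘ (Subtype.val : RS G → (G → Bool)) =
        Subtype.val ∘ (sh g) := rfl
    rw [e, ← Measure.map_map hemb.measurable (sh g).measurable, (h1 g).map_eq]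
  · rw [hemb.map_apply]
    exact h2 x
  · rw [hemb.ae_map_iff]
    filter_upwards [h3] with S hS
    obtain ⟨h, hh, h5, h6⟩ := limit_flat hf o κ hκD S fun W hW => by
      obtain ⟨g, hg⟩ := hS W hW
      refine ⟨g, fun x hx => (hg x hx).trans ⟨?_, ?_⟩⟩
      · rintro ⟨m, hm⟩
        obtain ⟨z, -, hz⟩ := Finset.mem_image.1 hm
        exact ⟨z, hz.symm⟩
      · rintro ⟨z, hz⟩
        refine ⟨∑ i, (z i).natAbs, ?_⟩
        rw [hz]
        refine Finset.mem_image_of_mem _ (mem_box.2 fun i => ?_)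
        rw [Int.abs_eq_natAbs]
        exact_mod_cast Finset.single_le_sum (f := fun i => (z i).natAbs) (fun _ _ => Nat.zero_le _)
          (Finset.mem_univ i)
    refine ⟨h, hh, ?_, ?_⟩
    · rintro _ ⟨a, ha, rfl⟩
      obtain ⟨y, hy⟩ := h5 a ha
      exact ⟨h y, ⟨y, rfl⟩, hy⟩
    · rintro _ ⟨y, rfl⟩
      obtain ⟨a, ha, hy⟩ := h6 y
      exact ⟨a • o, ⟨a, ha, rfl⟩, hy⟩

theorem clopen_mem (a : G) : IsClopen {A : G → Bool | A a = true} := by
  have e : {A : G → Bool | A a = true} = (fun A : G → Bool => A a) ⁻¹' {true} := rfl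
  rw [e]
  exact (isClopen_discrete _).preimage (continuous_apply a)

theorem meas [Countable G] (o : X) (l : ℕ) (p : E l → X) (n : ℝ) :
    MeasurableSet {A : G → Bool | CloseTo n (orb o A) (range p)} := by
  have e : {A : G → Bool | CloseTo n (orb o A) (range p)} =
      (⋂ a : G, {A : G → Bool | A a = true → ∃ y ∈ range p, dist (a • o) y ≤ n}) ∩
      ⋂ y ∈ range p, ⋃ a ∈ {g : G | dist (g • o) y ≤ n}, {A : G → Bool | A a = true} := by
    ext A
    rw [mem_inter_iff, mem_iInter, mem_iInter₂]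
    constructor
    · rintro ⟨ha, hb⟩
      refine ⟨fun a h => ha _ ⟨a, h, rfl⟩, fun y hy => ?_⟩
      obtain ⟨_, ⟨a, h, rfl⟩, hd⟩ := hb y hy
      exact mem_iUnion₂.2 ⟨a, hd, h⟩
    · rintro ⟨ha, hb⟩
      refine ⟨?_, fun y hy => ?_⟩
      · rintro _ ⟨a, h, rfl⟩
        exact ha a h
      · obtain ⟨a, hd, h⟩ := mem_iUnion₂.1 (hb y hy)
        exact ⟨a • o, ⟨a, h, rfl⟩, hd⟩
  rw [e]
  refine MeasurableSet.inter (MeasurableSet.iInter fun a => ?_) ?_
  · by_cases hP : ∃ y ∈ range p, dist (a • o) y ≤ n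
    · have : {A : G → Bool | A a = true → ∃ y ∈ range p, dist (a • o) y ≤ n} = univ :=
        eq_univ_of_forall fun S _ => hP
      rw [this]
      exact MeasurableSet.univ
    · have : {A : G → Bool | A a = true → ∃ y ∈ range p, dist (a • o) y ≤ n} =
          {A : G → Bool | A a = true}ᶜ := by
        ext S
        exact ⟨fun h h' => hP (h h'), fun h h' => (h h').elim⟩
      rw [this]
      exact (clopen_mem a).compl.1.measurableSet
  · refine IsClosed.measurableSet (isClosed_biInter fun y _ => ?_)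
    exact (fin_orb o y n).isClosed_biUnion fun a _ => (clopen_mem a).1

/-- the action of `G` on its subsets -/
@[reducible] def tact : MulAction G (G → Bool) where
  smul g A := fun x => A (g⁻¹ * x)
  one_smul A := by
    funext x
    change A (1⁻¹ * x) = A x
    rw [inv_one, one_mul]
  mul_smul g h A := by
    funext x
    change A ((g * h)⁻¹ * x) = A (h⁻¹ * (g⁻¹ * x))
    rw [mul_inv_rev, mul_assoc]

theorem field_of (o : X) (μ : Measure (G → Bool))
    (h1 : ∀ g : G, μ.map (fun A x => A (g⁻¹ * x)) = μ) (h2 : ∀ x : G, μ {A | A x = true} = 1) :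
    @Field X _ G _ _ (G → Bool) _ tact μ (orb o) := by
  letI : MulAction G (G → Bool) := tact
  refine ⟨fun g => ⟨measurable_pi_lambda _ fun x => measurable_pi_apply (g⁻¹ * x), h1 g⟩,
    fun g S => ?_, fun B hB => ?_⟩
  · ext x
    constructor
    · rintro ⟨a, ha, rfl⟩
      exact ⟨(g⁻¹ * a) • o, ⟨g⁻¹ * a, ha, rfl⟩, by
        change g • (g⁻¹ * a) • o = a • o
        rw [smul_smul, mul_inv_cancel_left]⟩
    · rintro ⟨_, ⟨a, ha, rfl⟩, rfl⟩
      refine ⟨g * a, ?_, mul_smul _ _ _⟩
      change S (g⁻¹ * (g * a)) = true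
      rw [inv_mul_cancel_left]
      exact ha
  · obtain ⟨R, hR⟩ := hB.subset_closedBall o
    have h4 : {A : G → Bool | (orb o A ∩ B).Nonempty} ⊆
        ⋃ a ∈ {g : G | dist (g • o) o ≤ R}, {A : G → Bool | A a = true} := by
      rintro S ⟨_, ⟨a, ha, rfl⟩, haB⟩
      exact mem_iUnion₂.2 ⟨a, hR haB, ha⟩
    refine (measure_mono h4).trans_lt (measure_biUnion_lt_top (fin_orb o o R) fun a _ => ?_)
    rw [h2]
    exact ENNReal.one_lt_top

end

end Pool.Agent.U541.RF
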