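import Pool.Agent.U541.RF.Lim

/-!
Limit measures along Folner sequences: almost all limit sets look locally like translates of the
union of the sequence.
-/

set_option autoImplicit false
set_option linter.unusedSectionVars false

namespace Pool.Agent.U541.RF

open Set Filter Topology MeasureTheory

variable {G : Type*} [Group G]

theorem growth {A : ℕ → ℕ} (h0 : 0 < A 0) {C k : ℕ} (h : ∀ n, A n ≤ C * (n + 1) ^ k) (j : ℕ) :
    ∃ n, A (n + j) * (j + 1) ≤ (j + 2) * A n := by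
  by_contra hc
  push Not at hc
  set r : ℝ := (j + 2 : ℝ) / (j + 1) with hr
  have hj : (0 : ℝ) < j + 1 := by positivity
  have hr1 : 1 < r := by
    rw [hr, one_lt_div hj]
    linarith
  have h1 : ∀ m : ℕ, r ^ m ≤ A (m * j) := by
    intro m
    induction m with
    | zero =>
      have : (1 : ℝ) ≤ A 0 := by exact_mod_cast h0
      simpa using this
    | succ m ih =>
      have h2 : ((j : ℝ) + 2) * A (m * j) < A (m * j + j) * (j + 1) := by
        exact_mod_cast hc (m * j)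
      have h3 : r * A (m * j) ≤ A (m * j + j) := by
        rw [hr, div_mul_eq_mul_div, div_le_iff₀ hj]
        exact h2.le
      rw [pow_succ, Nat.succ_mul]
      calc r ^ m * r ≤ A (m * j) * r := mul_le_mul_of_nonneg_right ih (by linarith)
        _ = r * A (m * j) := mul_comm _ _
        _ ≤ _ := h3
  have h2 : Tendsto (fun m : ℕ => (C * ((j : ℝ) + 1) ^ k : ℝ) * ((m : ℝ) ^ k / r ^ m)) atTop
      (𝓝 0) := by
    simpa using (tendsto_pow_const_div_const_pow_of_one_lt k hr1).const_mul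
      (C * ((j : ℝ) + 1) ^ k : ℝ)
  obtain ⟨m, hm1, hm⟩ := ((eventually_ge_atTop 1).and (h2.eventually (gt_mem_nhds one_pos))).exists
  have h3 : (A (m * j) : ℝ) ≤ C * ((j : ℝ) + 1) ^ k * m ^ k := by
    have h4 : (A (m * j) : ℝ) ≤ C * (((m * j : ℕ) : ℝ) + 1) ^ k := by exact_mod_cast h (m * j)
    refine h4.trans ?_
    rw [mul_assoc, ← mul_pow]
    have : (1 : ℝ) ≤ m := by exact_mod_cast hm1
    gcongr
    push_cast
    nlinarith
  have h5 : 0 < r ^ m := by positivity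
  have h6 : (1 : ℝ) ≤ C * ((j : ℝ) + 1) ^ k * ((m : ℝ) ^ k / r ^ m) := by
    rw [← mul_div_assoc, le_div_iff₀ h5, one_mul]
    exact (h1 m).trans h3
  linarith

/-- the sets whose trace on `W` is `Q` -/
def Pat (W Q : Finset G) : Set (RS G) := {A | ∀ x ∈ W, (A.1 x = true ↔ x ∈ Q)}

theorem isClopen_Pat (W Q : Finset G) : IsClopen (Pat W Q) := by
  have e : Pat W Q = ⋂ x ∈ W, {A : RS G | A.1 x = true ↔ x ∈ Q} := by
    ext A
    simp [Pat]
  rw [e]
  refine isClopen_biInter_finset fun x _ => ?_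
  by_cases hx : x ∈ Q
  · have : {A : RS G | A.1 x = true ↔ x ∈ Q} = C x := by
      ext A
      simp [hx, C]
    rw [this]
    exact isClopen_C x
  · have : {A : RS G | A.1 x = true ↔ x ∈ Q} = (C x)ᶜ := by
      ext A
      simp [hx, C]
    rw [this]
    exact (isClopen_C x).compl

theorem isCompact_Pat {W Q : Finset G} (hQW : Q ⊆ W) (hQ : Q.Nonempty) :
    IsCompact (Pat W Q) := by
  obtain ⟨x, hx⟩ := hQ
  exact (isCompact_C x).of_isClosed_subset (isClopen_Pat W Q).1 fun A hA =>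
    (hA x (hQW hx)).2 hx

theorem ae_pat [Countable G] (A : ℕ → Finset G) (hA0 : (A 0).Nonempty) (hmono : Monotone A)
    (hL : ∀ L : G, ∃ c : ℕ, ∀ n, ∀ a ∈ A n, ∀ m, a * L ∈ A m → a * L ∈ A (n + c)) {C₀ k : ℕ}
    (hg : ∀ n, (A n).card ≤ C₀ * (n + 1) ^ k) :
    ∃ μ : Measure (RS G), (∀ g, MeasurePreserving (sh g) μ μ) ∧ (∀ x, μ (C x) = 1) ∧
      ∀ᵐ S ∂μ, ∀ W : Finset G, (∃ x ∈ W, S.1 x = true) →
        ∃ g : G, ∀ x ∈ W, (S.1 x = true ↔ ∃ m, g⁻¹ * x ∈ A m) := by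
  classical
  choose n hn using growth (A := fun n => (A n).card) hA0.card_pos hg
  have hne : ∀ n, (A n).Nonempty := fun n => hA0.mono (hmono (Nat.zero_le n))
  obtain ⟨μ, h1, h2, h3⟩ := exists_measure fun j => ⟨A (n j), hne (n j)⟩
  refine ⟨μ, h1, h2, ?_⟩
  choose c hc using hL
  have key : ∀ W Q : Finset G, Q ⊆ W → Q.Nonempty →
      (¬ ∃ g : G, ∀ x ∈ W, (x ∈ Q ↔ ∃ m, g⁻¹ * x ∈ A m)) → μ (Pat W Q) = 0 := by
    intro W Q hQW hQ hno
    refine h3 _ (isClopen_Pat W Q) (isCompact_Pat hQW hQ) ?_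
    set c₀ : ℕ := (W ×ˢ W).sup fun p => c (p.1⁻¹ * p.2) with hc₀
    have hsup : ∀ j, c₀ ≤ j → Function.support
        (fun g => (Pat W Q).indicator (1 : RS G → ℝ) (pt ⟨A (n j), hne (n j)⟩ g)) ⊆
        (Finset.image₂ (fun w b => w * b⁻¹) W (A (n j + j) \ A (n j)) : Finset G) := by
      intro j hj g hg
      have hP : pt ⟨A (n j), hne (n j)⟩ g ∈ Pat W Q := by
        by_contra h
        exact hg (indicator_of_notMem h _)
      have hP' : ∀ x ∈ W, (g⁻¹ * x ∈ A (n j) ↔ x ∈ Q) := fun x hx =>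
        (pt_mem ⟨A (n j), hne (n j)⟩ g x).symm.trans (hP x hx)
      have h4 : ∃ x ∈ W, ¬ (x ∈ Q ↔ ∃ m, g⁻¹ * x ∈ A m) := by
        by_contra h
        push Not at h
        exact hno ⟨g, h⟩
      obtain ⟨x, hx, hx'⟩ := h4
      have hxQ : x ∉ Q := fun h => hx' ⟨fun _ => ⟨n j, (hP' x hx).2 h⟩, fun _ => h⟩
      have hm : ∃ m, g⁻¹ * x ∈ A m := by
        by_contra h
        exact hx' ⟨fun h' => (hxQ h').elim, fun h' => (h h').elim⟩
      obtain ⟨m, hm⟩ := hm
      obtain ⟨w, hw⟩ := hQ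
      have hwA : g⁻¹ * w ∈ A (n j) := (hP' w (hQW hw)).2 hw
      have e : g⁻¹ * w * (w⁻¹ * x) = g⁻¹ * x := by group
      have h5 := hc (w⁻¹ * x) (n j) _ hwA m (by rwa [e])
      rw [e] at h5
      have h6 : c (w⁻¹ * x) ≤ c₀ := Finset.le_sup (f := fun p : G × G => c (p.1⁻¹ * p.2))
        (Finset.mk_mem_product (hQW hw) hx)
      have h7 : g⁻¹ * x ∈ A (n j + j) := hmono (by omega) h5
      refine Finset.mem_coe.2 (Finset.mem_image₂.2 ⟨x, hx, g⁻¹ * x,
        Finset.mem_sdiff.2 ⟨h7, fun h => hxQ ((hP' x hx).1 h)⟩, by group⟩)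
    have hb : ∀ j, c₀ ≤ j → s ⟨A (n j), hne (n j)⟩ ((Pat W Q).indicator 1) ≤
        W.card * (1 / ((j : ℝ) + 1)) := by
      intro j hj
      have hcpos : (0 : ℝ) < (A (n j)).card := by exact_mod_cast (hne (n j)).card_pos
      unfold s
      rw [finsum_eq_sum_of_support_subset _ (hsup j hj)]
      have h4 : ∑ g ∈ Finset.image₂ (fun w b => w * b⁻¹) W (A (n j + j) \ A (n j)),
          (Pat W Q).indicator (1 : RS G → ℝ) (pt ⟨A (n j), hne (n j)⟩ g) ≤
          (Finset.image₂ (fun w b => w * b⁻¹) W (A (n j + j) \ A (n j))).card := by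
        refine (Finset.sum_le_card_nsmul _ _ 1 fun g _ => ?_).trans (by simp)
        exact indicator_le_self' (f := (1 : RS G → ℝ)) (fun _ _ => zero_le_one) _
      have h5 : ((Finset.image₂ (fun w b => w * b⁻¹) W (A (n j + j) \ A (n j))).card : ℝ) ≤
          W.card * (A (n j + j) \ A (n j)).card := by exact_mod_cast Finset.card_image₂_le _ _ _
      have h6 : ((A (n j + j) \ A (n j)).card : ℝ) * (j + 1) ≤ (A (n j)).card := by
        have h7 : (A (n j + j) \ A (n j)).card + (A (n j)).card = (A (n j + j)).card :=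
          Finset.card_sdiff_add_card_eq_card (hmono (Nat.le_add_right _ _))
        have h8 := hn j
        have h9 : (A (n j + j) \ A (n j)).card * (j + 1) ≤ (A (n j)).card := by
          rw [← h7] at h8
          nlinarith
        exact_mod_cast h9
      have hj1 : (0 : ℝ) < j + 1 := by positivity
      have h7 : ((A (n j + j) \ A (n j)).card : ℝ) ≤ (A (n j)).card * (1 / ((j : ℝ) + 1)) := by
        rw [mul_one_div, le_div_iff₀ hj1]
        exact h6
      calc _ ≤ ((A (n j)).card : ℝ)⁻¹ * (W.card * ((A (n j)).card * (1 / ((j : ℝ) + 1)))) :=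
            mul_le_mul_of_nonneg_left (h4.trans (h5.trans
              (mul_le_mul_of_nonneg_left h7 (Nat.cast_nonneg _)))) (inv_nonneg.2 hcpos.le)
        _ = W.card * (1 / ((j : ℝ) + 1)) := by field_simp
    refine squeeze_zero' (Eventually.of_forall fun j => s_nonneg _ fun A =>
      indicator_nonneg (fun _ _ => zero_le_one) A)
      (eventually_atTop.2 ⟨c₀, hb⟩) ?_
    simpa using (tendsto_one_div_add_atTop_nhds_zero_nat (𝕜 := ℝ)).const_mul (W.card : ℝ)
  have h4 : ∀ᵐ S ∂μ, ∀ W Q : Finset G, Q ⊆ W → Q.Nonempty →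
      (¬ ∃ g : G, ∀ x ∈ W, (x ∈ Q ↔ ∃ m, g⁻¹ * x ∈ A m)) → S ∉ Pat W Q := by
    rw [ae_all_iff]
    intro W
    rw [ae_all_iff]
    intro Q
    by_cases h : Q ⊆ W ∧ Q.Nonempty ∧ ¬ ∃ g : G, ∀ x ∈ W, (x ∈ Q ↔ ∃ m, g⁻¹ * x ∈ A m)
    · filter_upwards [measure_eq_zero_iff_ae_notMem.1 (key W Q h.1 h.2.1 h.2.2)] with S hS _ _ _
        using hS
    · exact Eventually.of_forall fun S h1 h2 h3 => (h ⟨h1, h2, h3⟩).elim
  filter_upwards [h4] with S hS W hW
  by_contra hno
  refine hS W (W.filter fun x => S.1 x = true) (Finset.filter_subset _ _) ?_ ?_ ?_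
  · obtain ⟨x, hx, hx'⟩ := hW
    exact ⟨x, Finset.mem_filter.2 ⟨hx, hx'⟩⟩
  · rintro ⟨g, hg⟩
    refine hno ⟨g, fun x hx => ?_⟩
    rw [← hg x hx, Finset.mem_filter]
    exact ⟨fun h => ⟨hx, h⟩, fun h => h.2⟩
  · intro x hx
    rw [Finset.mem_filter]
    exact ⟨fun h => ⟨hx, h⟩, fun h => h.2⟩

end Pool.Agent.U541.RF
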