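import Mathlib

/-!
Limits of normalised sums of Dirac measures at the translates of finite subsets of a group.
-/

set_option autoImplicit false
set_option linter.unusedSectionVars false

namespace Pool.Agent.U541.RF

open Set Filter Topology MeasureTheory
open scoped CompactlySupported

variable {G : Type*} [Group G]

/-- the nonempty subsets of `G` -/
abbrev RS (G : Type*) : Type _ := {A : G → Bool // ∃ x, A x = true}

theorem isOpen_ne : IsOpen {A : G → Bool | ∃ x, A x = true} := by
  have e : {A : G → Bool | ∃ x, A x = true} = ⋃ x, (fun A : G → Bool => A x) ⁻¹' {true} := by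
    ext A
    simp
  rw [e]
  exact isOpen_iUnion fun x => (isOpen_discrete ({true} : Set Bool)).preimage (continuous_apply x)

instance : LocallyCompactSpace (RS G) := (isOpen_ne (G := G)).locallyCompactSpace

/-- the sets which contain `x` -/
def C (x : G) : Set (RS G) := {A | A.1 x = true}

theorem isClopen_C (x : G) : IsClopen (C x) := by
  have e : C x = (fun A : RS G => A.1 x) ⁻¹' {true} := by
    ext A
    simp [C]
  rw [e]
  exact (isClopen_discrete _).preimage ((continuous_apply x).comp continuous_subtype_val)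

theorem isCompact_C (x : G) : IsCompact (C x) := by
  rw [Subtype.isCompact_iff]
  have e : (Subtype.val '' (C x) : Set (G → Bool)) = {A | A x = true} := by
    ext A
    constructor
    · rintro ⟨B, hB, rfl⟩
      exact hB
    · intro hA
      exact ⟨⟨A, x, hA⟩, hA, rfl⟩
  rw [e]
  exact (isClosed_eq (continuous_apply x) continuous_const).isCompact

theorem cover {S : Set (RS G)} (hS : IsCompact S) : ∃ W : Finset G, S ⊆ ⋃ x ∈ W, C x :=
  hS.elim_finite_subcover (fun x => C x) (fun x => (isClopen_C x).isOpen) fun A _ => by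
    obtain ⟨x, hx⟩ := A.2
    exact mem_iUnion.2 ⟨x, hx⟩

open Classical in
/-- the translate `g B` of the finite set `B` -/
noncomputable def pt (B : {B : Finset G // B.Nonempty}) (g : G) : RS G :=
  ⟨fun x => decide (g⁻¹ * x ∈ B.1), by
    obtain ⟨b, hb⟩ := B.2
    exact ⟨g * b, by simpa using hb⟩⟩

theorem pt_mem (B : {B : Finset G // B.Nonempty}) (g x : G) : pt B g ∈ C x ↔ g⁻¹ * x ∈ B.1 := by
  simp [pt, C]

/-- translation by `g`, a homeomorphism -/
def sh (g : G) : RS G ≃ₜ RS G where
  toFun A := ⟨fun x => A.1 (g⁻¹ * x), by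
    obtain ⟨x, hx⟩ := A.2
    exact ⟨g * x, by simpa using hx⟩⟩
  invFun A := ⟨fun x => A.1 (g * x), by
    obtain ⟨x, hx⟩ := A.2
    exact ⟨g⁻¹ * x, by simpa using hx⟩⟩
  left_inv A := by
    apply Subtype.ext
    funext x
    simp
  right_inv A := by
    apply Subtype.ext
    funext x
    simp
  continuous_toFun := by
    refine Continuous.subtype_mk (continuous_pi fun x => ?_) _
    exact (continuous_apply (g⁻¹ * x)).comp continuous_subtype_val
  continuous_invFun := by
    refine Continuous.subtype_mk (continuous_pi fun x => ?_) _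
    exact (continuous_apply (g * x)).comp continuous_subtype_val

theorem sh_pt (B : {B : Finset G // B.Nonempty}) (g h : G) : sh g (pt B h) = pt B (g * h) := by
  apply Subtype.ext
  funext x
  simp [sh, pt, mul_assoc]

/-- the normalised sum over the translates of `B` -/
noncomputable def s (B : {B : Finset G // B.Nonempty}) (φ : RS G → ℝ) : ℝ :=
  (B.1.card : ℝ)⁻¹ * ∑ᶠ g, φ (pt B g)

/-- the translates of `B` which meet `W` -/
noncomputable def tr [DecidableEq G] (B : {B : Finset G // B.Nonempty}) (W : Finset G) : Finset G :=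
  Finset.image₂ (fun x b => x * b⁻¹) W B.1

theorem mem_tr [DecidableEq G] (B : {B : Finset G // B.Nonempty}) (W : Finset G) {g : G}
    (h : pt B g ∈ ⋃ x ∈ W, C x) : g ∈ tr B W := by
  obtain ⟨x, hx, hg⟩ := mem_iUnion₂.1 h
  rw [pt_mem] at hg
  exact Finset.mem_image₂.2 ⟨x, hx, g⁻¹ * x, hg, by group⟩

theorem card_tr [DecidableEq G] (B : {B : Finset G // B.Nonempty}) (W : Finset G) :
    (tr B W).card ≤ W.card * B.1.card := Finset.card_image₂_le _ _ _

theorem supp [DecidableEq G] (B : {B : Finset G // B.Nonempty}) {φ : RS G → ℝ} {W : Finset G}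
    (hφ : Function.support φ ⊆ ⋃ x ∈ W, C x) :
    Function.support (fun g => φ (pt B g)) ⊆ (tr B W : Set G) := fun _ hg => mem_tr B W (hφ hg)

theorem s_le (B : {B : Finset G // B.Nonempty}) {φ : RS G → ℝ} {W : Finset G} {M : ℝ}
    (hφ : Function.support φ ⊆ ⋃ x ∈ W, C x) (hM : ∀ A, |φ A| ≤ M) :
    |s B φ| ≤ W.card * M := by
  classical
  have hc : (0 : ℝ) < B.1.card := by exact_mod_cast B.2.card_pos
  have hM0 : 0 ≤ M := (abs_nonneg _).trans (hM (pt B 1))
  unfold s
  rw [finsum_eq_sum_of_support_subset _ (supp B hφ), abs_mul, abs_of_pos (inv_pos.2 hc)]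
  have h1 : |∑ g ∈ tr B W, φ (pt B g)| ≤ (tr B W).card * M :=
    (Finset.abs_sum_le_sum_abs _ _).trans ((Finset.sum_le_card_nsmul _ _ M fun g _ => hM _).trans
      (by rw [nsmul_eq_mul]))
  have h2 : ((tr B W).card : ℝ) ≤ W.card * B.1.card := by exact_mod_cast card_tr B W
  calc (B.1.card : ℝ)⁻¹ * |∑ g ∈ tr B W, φ (pt B g)|
      ≤ (B.1.card : ℝ)⁻¹ * ((W.card * B.1.card) * M) :=
        mul_le_mul_of_nonneg_left (h1.trans (mul_le_mul_of_nonneg_right h2 hM0))
          (inv_nonneg.2 hc.le)
    _ = W.card * M := by field_simp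

theorem s_add (B : {B : Finset G // B.Nonempty}) {φ ψ : RS G → ℝ} {W W' : Finset G}
    (hφ : Function.support φ ⊆ ⋃ x ∈ W, C x) (hψ : Function.support ψ ⊆ ⋃ x ∈ W', C x) :
    s B (fun A => φ A + ψ A) = s B φ + s B ψ := by
  classical
  unfold s
  rw [finsum_add_distrib ((tr B W).finite_toSet.subset (supp B hφ))
    ((tr B W').finite_toSet.subset (supp B hψ)), mul_add]

theorem s_smul (B : {B : Finset G // B.Nonempty}) (c : ℝ) (φ : RS G → ℝ) :
    s B (fun A => c * φ A) = c * s B φ := by
  unfold s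
  rw [← mul_finsum, mul_left_comm]

theorem s_nonneg (B : {B : Finset G // B.Nonempty}) {φ : RS G → ℝ} (h : ∀ A, 0 ≤ φ A) :
    0 ≤ s B φ := mul_nonneg (inv_nonneg.2 (Nat.cast_nonneg _)) (finsum_nonneg fun _ => h _)

theorem s_sh (B : {B : Finset G // B.Nonempty}) (φ : RS G → ℝ) (g : G) :
    s B (fun A => φ (sh g A)) = s B φ := by
  unfold s
  simp only [sh_pt]
  congr 1
  exact finsum_comp_equiv (Equiv.mulLeft g) (f := fun h => φ (pt B h))

theorem bdd (φ : C_c(RS G, ℝ)) : ∃ (W : Finset G) (M : ℝ),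
    Function.support φ ⊆ ⋃ x ∈ W, C x ∧ ∀ A, |φ A| ≤ M := by
  obtain ⟨W, hW⟩ := cover φ.hasCompactSupport
  obtain ⟨M, hM⟩ := φ.continuous.bounded_above_of_compact_support φ.hasCompactSupport
  exact ⟨W, M, (subset_tsupport _).trans hW, hM⟩

/-- the limit functional -/
theorem exists_lim (B : ℕ → {B : Finset G // B.Nonempty}) : ∃ Λ : C_c(RS G, ℝ) →ₚ[ℝ] ℝ,
    ∀ φ : C_c(RS G, ℝ), Tendsto (fun j => s (B j) φ) (hyperfilter ℕ : Filter ℕ) (𝓝 (Λ φ)) := by
  have h : ∀ φ : C_c(RS G, ℝ), ∃ l, Tendsto (fun j => s (B j) φ) (hyperfilter ℕ : Filter ℕ)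
      (𝓝 l) := by
    intro φ
    obtain ⟨W, M, hW, hM⟩ := bdd φ
    obtain ⟨l, -, hl⟩ := (isCompact_Icc (a := -(W.card * M)) (b := W.card * M)).ultrafilter_le_nhds
      ((hyperfilter ℕ).map fun j => s (B j) φ) (by
        rw [le_principal_iff, Ultrafilter.mem_coe, Ultrafilter.mem_map]
        exact Filter.univ_mem' fun j => abs_le.1 (s_le (B j) hW hM))
    exact ⟨l, hl⟩
  choose Λ hΛ using h
  refine ⟨PositiveLinearMap.mk₀ { toFun := Λ, map_add' := ?_, map_smul' := ?_ } ?_, hΛ⟩
  · intro φ ψ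
    obtain ⟨W, M, hW, -⟩ := bdd φ
    obtain ⟨W', M', hW', -⟩ := bdd ψ
    refine tendsto_nhds_unique (hΛ (φ + ψ)) ?_
    refine ((hΛ φ).add (hΛ ψ)).congr fun j => ?_
    exact (s_add (B j) hW hW').symm
  · intro c φ
    refine tendsto_nhds_unique (hΛ (c • φ)) ?_
    refine ((hΛ φ).const_mul c).congr fun j => ?_
    exact (s_smul (B j) c φ).symm
  · intro φ hφ
    exact ge_of_tendsto (hΛ φ) (Eventually.of_forall fun j => s_nonneg (B j) fun A => hφ A)

/-- the indicator function of a compact open set -/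
noncomputable def ind {S : Set (RS G)} (h1 : IsClopen S) (h2 : IsCompact S) : C_c(RS G, ℝ) where
  toFun := LocallyConstant.charFn ℝ h1
  continuous_toFun := (LocallyConstant.charFn ℝ h1).continuous
  hasCompactSupport' := HasCompactSupport.intro h2 fun x hx => by
    rw [LocallyConstant.coe_charFn, indicator_of_notMem hx]

theorem ind_apply {S : Set (RS G)} (h1 : IsClopen S) (h2 : IsCompact S) (A : RS G) :
    ind h1 h2 A = S.indicator 1 A := by
  change (LocallyConstant.charFn ℝ h1) A = _
  rw [LocallyConstant.coe_charFn]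

theorem s_C (B : {B : Finset G // B.Nonempty}) (x : G) : s B ((C x).indicator 1) = 1 := by
  classical
  have hc : (0 : ℝ) < B.1.card := by exact_mod_cast B.2.card_pos
  have h1 : Function.support (fun g => (C x).indicator (1 : RS G → ℝ) (pt B g)) ⊆
      (B.1.image fun b => x * b⁻¹ : Finset G) := by
    intro g hg
    have h2 : pt B g ∈ C x := by
      by_contra h
      exact hg (indicator_of_notMem h _)
    rw [pt_mem] at h2
    exact Finset.mem_coe.2 (Finset.mem_image.2 ⟨g⁻¹ * x, h2, by group⟩)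
  unfold s
  rw [finsum_eq_sum_of_support_subset _ h1]
  have h3 : ∀ g ∈ B.1.image fun b => x * b⁻¹, (C x).indicator (1 : RS G → ℝ) (pt B g) = 1 := by
    intro g hg
    obtain ⟨b, hb, rfl⟩ := Finset.mem_image.1 hg
    refine indicator_of_mem ?_ _
    rw [pt_mem]
    simpa using hb
  rw [Finset.sum_congr rfl h3, Finset.sum_const, Finset.card_image_of_injective _ (by
    intro a b hab
    simpa using hab), nsmul_eq_mul, mul_one, inv_mul_cancel₀ hc.ne']

/-- the limit measure -/
theorem exists_measure [Countable G] (B : ℕ → {B : Finset G // B.Nonempty}) :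
    ∃ μ : Measure (RS G), (∀ g, MeasurePreserving (sh g) μ μ) ∧ (∀ x, μ (C x) = 1) ∧
      ∀ S : Set (RS G), IsClopen S → IsCompact S →
        Tendsto (fun j => s (B j) (S.indicator 1)) atTop (𝓝 0) → μ S = 0 := by
  obtain ⟨Λ, hΛ⟩ := exists_lim B
  set μ := RealRMK.rieszMeasure Λ with hμ
  have hint : ∀ φ : C_c(RS G, ℝ), ∫ A, φ A ∂μ = Λ φ := fun φ => RealRMK.integral_rieszMeasure Λ φ
  have hS : ∀ {S : Set (RS G)} (h1 : IsClopen S) (h2 : IsCompact S) (l : ℝ),
      Tendsto (fun j => s (B j) (S.indicator 1)) (hyperfilter ℕ : Filter ℕ) (𝓝 l) →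
        μ.real S = l := by
    intro S h1 h2 l hl
    have h3 := hint (ind h1 h2)
    simp only [ind_apply] at h3
    rw [integral_indicator_one h1.1.measurableSet] at h3
    rw [h3]
    refine tendsto_nhds_unique (hΛ (ind h1 h2)) (hl.congr fun j => ?_)
    have h5 : S.indicator (1 : RS G → ℝ) = fun A => ind h1 h2 A :=
      funext fun A => (ind_apply h1 h2 A).symm
    rw [h5]
  refine ⟨μ, fun g => ⟨(sh g).measurable, ?_⟩, fun x => ?_, fun S h1 h2 h3 => ?_⟩
  · have : (μ.map (sh g)).Regular := Measure.Regular.map (sh g)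
    refine Measure.ext_of_integral_eq_on_compactlySupported fun φ => ?_
    rw [(sh g).measurableEmbedding.integral_map]
    let φ' : C_c(RS G, ℝ) := ⟨⟨fun A => φ (sh g A), φ.continuous.comp (sh g).continuous⟩,
      φ.hasCompactSupport.comp_isClosedEmbedding (sh g).isClosedEmbedding⟩
    have h1 : ∫ A, φ (sh g A) ∂μ = Λ φ' := hint φ'
    rw [h1, hint]
    refine tendsto_nhds_unique (hΛ φ') ((hΛ φ).congr fun j => ?_)
    exact (s_sh (B j) φ g).symm
  · have h1 := hS (isClopen_C x) (isCompact_C x) 1 (tendsto_const_nhds.congr fun j =>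
      (s_C (B j) x).symm)
    have h2 : μ (C x) ≠ ⊤ := (isCompact_C x).measure_lt_top.ne
    rw [Measure.real, ENNReal.toReal_eq_one_iff] at h1
    exact h1
  · have h4 := hS h1 h2 0 (h3.mono_left Nat.hyperfilter_le_atTop)
    rw [Measure.real, ENNReal.toReal_eq_zero_iff] at h4
    exact h4.resolve_right h2.measure_lt_top.ne

end Pool.Agent.U541.RF
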