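import Pool.Agent.U541.RF.Geom
import Pool.Agent.U541.QP.Meas
import Pool.Agent.U541.FM.Flat

/-!
Random quasi-flats in groups.
-/

set_option autoImplicit false
set_option linter.unusedSectionVars false

namespace Pool.Agent.U541.RF

open Set Filter Topology MeasureTheory
open Pool.Agent.U541.QP (WM finite_ball countable_of_wm)

variable {G : Type*} [Group G] {d : G → G → ℕ}

/-- quasi-isometric embeddings of `ℤ ^ k` -/
def QE (d : G → G → ℕ) {k : ℕ} (K C : ℝ) (κ : (Fin k → ℤ) → G) : Prop :=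
  ∀ z z', dist z z' / K - C ≤ d (κ z) (κ z') ∧ (d (κ z) (κ z') : ℝ) ≤ K * dist z z' + C

theorem const_of_finite {α : Type*} (U : Ultrafilter ℕ) {b : ℕ → α} {T : Set α} (hT : T.Finite)
    (h : ∀ᶠ m in (U : Filter ℕ), b m ∈ T) : ∃ c ∈ T, ∀ᶠ m in (U : Filter ℕ), b m = c := by
  have h5 : (⋃ c ∈ T, {m | b m = c}) ∈ U := by
    filter_upwards [h] with m hm
    exact mem_iUnion₂.2 ⟨b m, hm, rfl⟩
  exact (Ultrafilter.finite_biUnion_mem_iff hT).1 h5

theorem dist_box {k : ℕ} {z z' : Fin k → ℤ} {c : ℕ} (h : dist z z' ≤ c) (i : Fin k) :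
    |z i - z' i| ≤ (c : ℤ) := by
  have h1 := (dist_le_pi_dist z z' i).trans h
  rw [Int.dist_eq] at h1
  exact_mod_cast h1

theorem fin_vec (k : ℕ) (R : ℝ) : {y : Fin k → ℤ | dist 0 y ≤ R}.Finite := by
  obtain ⟨c, hc⟩ := exists_nat_ge R
  refine (box k c).finite_toSet.subset fun y hy => ?_
  refine Finset.mem_coe.2 (mem_box.2 fun i => ?_)
  have h := dist_box (le_trans hy hc) i
  simpa using h

theorem limit_quasi (hw : WM d) {k : ℕ} {K C : ℝ} (hK : 1 ≤ K) {κ : (Fin k → ℤ) → G}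
    (hκ : QE d K C κ) (S : RS G)
    (hS : ∀ W : Finset G, (∃ x ∈ W, S.1 x = true) →
      ∃ g : G, ∀ x ∈ W, (S.1 x = true ↔ ∃ z, g⁻¹ * x = κ z)) :
    ∃ κ' : (Fin k → ℤ) → G, QE d K C κ' ∧ range κ' = {x | S.1 x = true} := by
  classical
  have hK0 : 0 < K := by linarith
  obtain ⟨x₀, hx₀⟩ := S.2
  set W : ℕ → Finset G := fun m => insert x₀ (finite_ball hw 1 m).toFinset with hW
  have hWm : ∀ (m : ℕ) (a : G), d 1 a ≤ m → a ∈ W m := fun m a ha =>
    Finset.mem_insert_of_mem ((finite_ball hw 1 m).mem_toFinset.2 ha)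
  have hWx : ∀ m, x₀ ∈ W m := fun m => Finset.mem_insert_self _ _
  choose g hg using fun m : ℕ => hS (W m) ⟨x₀, hWx m, hx₀⟩
  choose z hz using fun m : ℕ => (hg m x₀ (hWx m)).1 hx₀
  set U : Ultrafilter ℕ := hyperfilter ℕ with hU
  have hUle : (U : Filter ℕ) ≤ atTop := Nat.hyperfilter_le_atTop
  have hWe : ∀ a : G, ∀ᶠ m in (U : Filter ℕ), a ∈ W m := fun a =>
    hUle (eventually_atTop.2 ⟨d 1 a, fun m hm => hWm m a hm⟩)
  set p : ℕ → (Fin k → ℤ) → G := fun m y => g m * κ (z m + y) with hp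
  have hp0 : ∀ m, p m 0 = x₀ := by
    intro m
    simp only [hp, add_zero]
    rw [← hz m, mul_inv_cancel_left]
  have hpq : ∀ m, QE d K C (p m) := by
    intro m y y'
    simp only [hp]
    rw [hw.inv, ← dist_add_left (z m) y y']
    exact hκ _ _
  have hfin : ∀ y, ∃ c, ∀ᶠ m in (U : Filter ℕ), p m y = c := by
    intro y
    obtain ⟨n, hn⟩ := exists_nat_ge (K * dist 0 y + C)
    obtain ⟨c, -, hc⟩ := const_of_finite U (finite_ball hw x₀ n)
      (Eventually.of_forall fun m => (by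
        have h1 := (hpq m 0 y).2.trans hn
        rw [hp0] at h1
        exact_mod_cast h1 : d x₀ (p m y) ≤ n))
    exact ⟨c, hc⟩
  choose κ' hκ' using hfin
  refine ⟨κ', fun y y' => ?_, ?_⟩
  · obtain ⟨m, h1, h2⟩ := ((hκ' y).and (hκ' y')).exists
    rw [← h1, ← h2]
    exact hpq m y y'
  · ext x
    constructor
    · rintro ⟨y, rfl⟩
      obtain ⟨m, h1, h2⟩ := ((hκ' y).and (hWe (κ' y))).exists
      refine (hg m (κ' y) h2).2 ⟨z m + y, ?_⟩
      rw [← h1]
      simp only [hp]
      rw [inv_mul_cancel_left]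
    · intro hx
      have h1 : ∀ m, ∃ y, x ∈ W m → p m y = x := by
        intro m
        by_cases hm : x ∈ W m
        · obtain ⟨z', hz'⟩ := (hg m x hm).1 hx
          refine ⟨z' - z m, fun _ => ?_⟩
          simp only [hp]
          rw [add_sub_cancel, ← hz', mul_inv_cancel_left]
        · exact ⟨0, fun h => (hm h).elim⟩
      choose y hy using h1
      obtain ⟨c, -, hc⟩ := const_of_finite U (fin_vec k (K * (d x₀ x + C)))
        ((hWe x).mono fun m hm => (by
          have h2 := (hpq m 0 (y m)).1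
          rw [hp0, hy m hm, sub_le_iff_le_add, div_le_iff₀ hK0, mul_comm] at h2
          exact h2 : dist 0 (y m) ≤ K * (d x₀ x + C)))
      obtain ⟨m, ⟨h3, h4⟩, h5⟩ := ((hc.and (hWe x)).and (hκ' c)).exists
      refine ⟨c, ?_⟩
      rw [← h5, ← h3]
      exact hy m h4

theorem random_quasi (hw : WM d) {k : ℕ} {K C : ℝ} (hK : 1 ≤ K) {κ : (Fin k → ℤ) → G}
    (hκ : QE d K C κ) :
    ∃ μ : Measure (G → Bool), (∀ g : G, μ.map (fun A x => A (g⁻¹ * x)) = μ) ∧
      (∀ x : G, μ {A | A x = true} = 1) ∧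
      ∀ᵐ A ∂μ, ∃ κ' : (Fin k → ℤ) → G, QE d K C κ' ∧ range κ' = {x | A x = true} := by
  classical
  have hK0 : 0 < K := by linarith
  have : Countable G := countable_of_wm hw
  set A : ℕ → Finset G := fun n => (box k n).image κ with hA
  have hA0 : (A 0).Nonempty := ⟨κ 0, Finset.mem_image_of_mem _ (mem_box.2 fun i => by simp)⟩
  have hmono : Monotone A := fun a b hab => Finset.image_subset_image fun z hz =>
    mem_box.2 fun i => (mem_box.1 hz i).trans (by exact_mod_cast hab)
  have hL : ∀ L : G, ∃ c : ℕ, ∀ n, ∀ a ∈ A n, ∀ m, a * L ∈ A m → a * L ∈ A (n + c) := by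
    intro L
    obtain ⟨c, hc⟩ := exists_nat_ge (K * (d 1 L + C))
    refine ⟨c, fun n a ha m hm => ?_⟩
    obtain ⟨z, hz, rfl⟩ := Finset.mem_image.1 ha
    obtain ⟨z', -, hz'⟩ := Finset.mem_image.1 hm
    rw [← hz']
    refine Finset.mem_image_of_mem _ (mem_box.2 fun i => ?_)
    have h1 : dist z z' ≤ c := by
      have h2 := (hκ z z').1
      have h4 : d (κ z) (κ z') = d 1 L := by
        rw [hz', ← hw.inv (κ z) 1 L, mul_one]
      rw [h4, sub_le_iff_le_add, div_le_iff₀ hK0, mul_comm] at h2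
      exact h2.trans hc
    have h2 := dist_box h1 i
    have h3 := mem_box.1 hz i
    rw [abs_le] at h2 h3 ⊢
    push_cast
    constructor <;> omega
  have hg : ∀ n, (A n).card ≤ 2 ^ k * (n + 1) ^ k := fun n =>
    Finset.card_image_le.trans (card_box k n)
  obtain ⟨μ, h1, h2, h3⟩ := ae_pat A hA0 hmono hL hg
  have hemb : MeasurableEmbedding (Subtype.val : RS G → (G → Bool)) :=
    MeasurableEmbedding.subtype_coe isOpen_ne.measurableSet
  have htl : ∀ g : G, Measurable (fun (A : G → Bool) (x : G) => A (g⁻¹ * x)) := fun g =>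
    measurable_pi_lambda _ fun x => measurable_pi_apply (g⁻¹ * x)
  refine ⟨μ.map Subtype.val, fun g => ?_, fun x => ?_, ?_⟩
  · rw [Measure.map_map (htl g) hemb.measurable]
    have e : (fun (A : G → Bool) (x : G) => A (g⁻¹ * x)) ∘ (Subtype.val : RS G → (G → Bool)) =
        Subtype.val ∘ (sh g) := rfl
    rw [e, ← Measure.map_map hemb.measurable (sh g).measurable, (h1 g).map_eq]
  · rw [hemb.map_apply]
    exact h2 x
  · rw [hemb.ae_map_iff]
    filter_upwards [h3] with S hS
    refine limit_quasi hw hK hκ S fun W hW => ?_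
    obtain ⟨g, hg⟩ := hS W hW
    refine ⟨g, fun x hx => (hg x hx).trans ⟨?_, ?_⟩⟩
    · rintro ⟨m, hm⟩
      obtain ⟨z, -, hz⟩ := Finset.mem_image.1 hm
      exact ⟨z, hz.symm⟩
    · rintro ⟨z, hz⟩
      refine ⟨∑ i, (z i).natAbs, ?_⟩
      rw [hz]
      refine Finset.mem_image_of_mem _ (mem_box.2 fun i => ?_)
      rw [Int.abs_eq_natAbs]
      exact_mod_cast Finset.single_le_sum (f := fun i => (z i).natAbs) (fun _ _ => Nat.zero_le _)
        (Finset.mem_univ i)

theorem atom_cosets [Countable G] (μ : Measure (G → Bool))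
    (h1 : ∀ g : G, μ.map (fun A x => A (g⁻¹ * x)) = μ) (h2 : ∀ x : G, μ {A | A x = true} = 1)
    (A : G → Bool) (hA : μ {A} ≠ 0) :
    ∃ (H : Subgroup G) (T : Finset G), {x | A x = true} = {x | ∃ h ∈ H, ∃ t ∈ T, x = h * t} := by
  classical
  let H : Subgroup G :=
    { carrier := {h | ∀ x, A (h * x) = A x}
      mul_mem' := fun {a b} ha hb x => by rw [mul_assoc, ha, hb]
      one_mem' := fun x => by rw [one_mul]
      inv_mem' := fun {a} ha x => by rw [← ha (a⁻¹ * x), mul_inv_cancel_left] }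
  have hT : ∀ a : G, μ {(fun x => A (a * x) : G → Bool)} = μ {A} := by
    intro a
    have h3 := h1 a⁻¹
    conv_lhs => rw [← h3]
    rw [Measure.map_apply (measurable_pi_lambda _ fun x => measurable_pi_apply _)
      (measurableSet_singleton _)]
    congr 1
    ext B
    simp only [mem_preimage, mem_singleton_iff, inv_inv]
    constructor
    · intro h
      funext x
      have := congrFun h (a⁻¹ * x)
      simpa using this
    · rintro rfl
      rfl
  obtain ⟨P, hP⟩ := Pool.Agent.U541.FM.finite_packing μ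
    (fun a : {a : G // A a = true} => {(fun x => A (a.1 * x) : G → Bool)})
    (fun a => measurableSet_singleton _) (pos_iff_ne_zero.2 hA) (fun a => hT a.1)
    (D := {B : G → Bool | B 1 = true}) (fun a => by
      rintro B rfl
      change A (a.1 * 1) = true
      rw [mul_one]
      exact a.2) (by rw [h2]; exact ENNReal.one_lt_top)
  refine ⟨H, P.image Subtype.val, ?_⟩
  ext x
  constructor
  · intro hx
    obtain ⟨b, hb, B, hB1, hB2⟩ := hP ⟨x, hx⟩
    have h3 : ∀ y, A (x * y) = A (b.1 * y) := fun y => by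
      have := (hB1 : B = _).symm.trans (hB2 : B = _)
      exact congrFun this y
    refine ⟨x * b.1⁻¹, fun y => ?_, b.1, Finset.mem_image_of_mem _ hb, by group⟩
    rw [mul_assoc, h3, mul_inv_cancel_left]
  · rintro ⟨h, hh, t, ht, rfl⟩
    obtain ⟨b, -, rfl⟩ := Finset.mem_image.1 ht
    change A (h * b.1) = true
    rw [hh b.1]
    exact b.2

end Pool.Agent.U541.RF
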